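import Pool.Statements.S01246
import Pool.Agent.HX6.HC.TR2
import Pool.Agent.Q18.HC.BB4
import Pool.Agent.Q18.HC.NF
import Pool.Agent.Q18.HC.M8
import Pool.Agent.Q18.HC.M1
import Pool.Agent.Q18.HC.M2

/-!
# The homological 1-2-3 conjecture fails

`Q` is a Bestvina-Brady group of type `FP` which is not finitely presented (kernel of the map onto
the integers of the right-angled Artin group of a flag triangulation, with 21 vertices, of the spine
of the Poincare homology sphere), `π₂ : F → Q` a surjection of a finitely generated free group, and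
`G₁` the HNN extension of `F × Q` whose stable letter centralises the graph of `π₂`, with
`π₁ : G₁ → Q` the projection (the stable letter goes to `1`). The kernel of `π₁` is generated by `F`
and the stable letter. The fibre product is the HNN extension of `F × F` over `F ×_Q F`, which is
not finitely generated, so the fibre product is not of type `FP₂`.
-/

set_option autoImplicit false
open CategoryTheory
open Pool Pool.MP_3ca9d5_al

namespace Pool.Agent.S01246

/-- The negation of the preceding statement: For surjections G₁→Q, G₂→Q with finitely generated kernel in G₁, G₁ and G₂ of type FP₂ and Q of type FP₃, the fibre product {(a,b) : π₁a = π₂b} is of type FP₂. -/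
theorem result :
    ¬ (∀ (G₁ G₂ Q : Type) [Group G₁] [Group G₂] [Group Q] (π₁ : G₁ →* Q) (π₂ : G₂ →* Q),
      Function.Surjective π₁ → Function.Surjective π₂ → Group.FG π₁.ker →
      (∃ R : ProjectiveResolution (Rep.trivial ℤ G₁ ℤ), ∀ k ≤ 2,
        ∃ s : Finset (R.complex.X k).V, ∀ x : (R.complex.X k).V,
          x ∈ Submodule.span ℤ
            (Set.range (fun p : G₁ × s => (R.complex.X k).ρ p.1 (p.2 : (R.complex.X k).V)))) →
      (∃ R : ProjectiveResolution (Rep.trivial ℤ G₂ ℤ), ∀ k ≤ 2,
        ∃ s : Finset (R.complex.X k).V, ∀ x : (R.complex.X k).V,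
          x ∈ Submodule.span ℤ
            (Set.range (fun p : G₂ × s => (R.complex.X k).ρ p.1 (p.2 : (R.complex.X k).V)))) →
      (∃ R : ProjectiveResolution (Rep.trivial ℤ Q ℤ), ∀ k ≤ 3,
        ∃ s : Finset (R.complex.X k).V, ∀ x : (R.complex.X k).V,
          x ∈ Submodule.span ℤ
            (Set.range (fun p : Q × s => (R.complex.X k).ρ p.1 (p.2 : (R.complex.X k).V)))) →
      (∃ R : ProjectiveResolution (Rep.trivial ℤ
          ↥((π₁.comp (MonoidHom.fst G₁ G₂)).eqLocus (π₂.comp (MonoidHom.snd G₁ G₂))) ℤ),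
        ∀ k ≤ 2,
        ∃ s : Finset (R.complex.X k).V, ∀ x : (R.complex.X k).V,
          x ∈ Submodule.span ℤ
            (Set.range (fun p : ↥((π₁.comp (MonoidHom.fst G₁ G₂)).eqLocus
                (π₂.comp (MonoidHom.snd G₁ G₂))) × s =>
              (R.complex.X k).ρ p.1 (p.2 : (R.complex.X k).V))))) := by
  intro h
  obtain ⟨G₁, G₂, Q, i1, i2, i3, π₁, π₂, h1, h2, h3, h4, h5, h6, h7⟩ :=
    Pool.Agent.Q18.HC.BB.main Pool.Agent.HX6.HC.tr Pool.Agent.Q18.HC.nf Pool.Agent.Q18.HC.m1
      Pool.Agent.Q18.HC.m2 Pool.Agent.Q18.HC.m8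
  exact h7 (h G₁ G₂ Q π₁ π₂ h1 h2 h3 h4 h5 h6)

end Pool.Agent.S01246
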