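-- The Hermitian rank of a real analytic function is bounded in terms of the ranks of its
-- restrictions to complex hyperplanes (with `c = 2 k ^ 4` squares, for every `n ≥ 2`).
import Pool.Statements.S04349
import Pool.Agent.Sx28.HR.Rank
import Pool.Agent.Sx28.HR.Ext

set_option autoImplicit false
open Pool Pool.MP_37b94e_an

namespace Pool.Agent.S04349

/-- For n ≥ 2 and each k there is c such that any real-analytic p on ℂⁿ whose restriction to every affine complex hyperplane is a sum of k terms ±∣holomorphic∣² is itself a sum of c terms ±∣entire holomorphic∣². -/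
theorem result :
    ∀ n : ℕ, 2 ≤ n → ∀ k : ℕ, ∃ c : ℕ, ∀ p : (Fin n → ℂ) → ℝ,
      AnalyticOnNhd ℝ p Set.univ →
      (∀ (a : Fin n → ℂ) (L : (Fin (n - 1) → ℂ) →ₗ[ℂ] (Fin n → ℂ)),
        Function.Injective L →
        ∃ (ε : Fin k → ℝ) (g : Fin k → (Fin (n - 1) → ℂ) → ℂ),
          (∀ j, ε j = 1 ∨ ε j = -1) ∧ (∀ j, Differentiable ℂ (g j)) ∧
          ∀ x, p (a + L x) = ∑ j, ε j * Complex.normSq (g j x)) →
      ∃ (ε : Fin c → ℝ) (f : Fin c → (Fin n → ℂ) → ℂ),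
        (∀ j, ε j = 1 ∨ ε j = -1) ∧ (∀ j, Differentiable ℂ (f j)) ∧
        ∀ z, p z = ∑ j, ε j * Complex.normSq (f j z) := by
  intro n hn k
  obtain ⟨m, rfl⟩ : ∃ m, n = m + 2 := ⟨n - 2, by omega⟩
  refine ⟨2 * (k ^ 2) ^ 2, fun p hp hH => ?_⟩
  have hH' : Pool.Agent.Sx28.HR.HypRep m k p := hH
  have hloc := fun z0 : Fin (m + 2) → ℂ =>
    Pool.Agent.Sx28.HR.local_rep hH' (hp z0 (Set.mem_univ _))
  obtain ⟨N, hN, φ, ψ, h1, h2, h3⟩ := Pool.Agent.Sx28.HR.exists_entire_rep hp ((k ^ 2) ^ 2)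
    (by
      obtain ⟨δ, hδ, N, hN, φ, ψ, h⟩ := hloc 0
      exact ⟨δ, hδ, N, hN, φ, ψ, h⟩)
    (by
      intro z
      obtain ⟨δ, hδ, N, hN, φ, ψ, h⟩ := hloc z
      exact ⟨δ, hδ, N, φ, ψ, h⟩)
  exact Pool.Agent.Sx28.HR.squares (by omega) φ ψ h1 h2 h3

end Pool.Agent.S04349
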