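import Pool.Statements.S04693
import Pool.Agent.N9helper31.UPi2

/-!
The unit ball of a Banach space with a 1-unconditional basis has a countable pi-base for the relative
weak topology.

Idea of the proof. For a weakly open `V` given by finitely many functionals `f` choose `x` in the
ball, weakly close to the given point, with `∑ |c_n (x)| |f (e_n)|` almost maximal. Then the box of
the `y` in the ball whose first coordinates are close to those of `x` is contained in `V` if it is
small enough: otherwise one averages many such `y` with random signs in front of their disjoint tails;
this leaves the values of `f` almost unchanged and increases the sum.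
-/

set_option autoImplicit false

namespace Pool.Agent.S04693

/-- For every real Banach space with a 1-unconditional basis, the closed unit ball in the relative weak topology has a countable family of nonempty relatively open sets such that every nonempty relatively open subset of the ball contains one of them. -/
theorem result :
    ∀ (X : Type) [NormedAddCommGroup X] [NormedSpace ℝ X] [CompleteSpace X] (e : ℕ → X),
      (∀ x : X, ∃! a : ℕ → ℝ, HasSum (fun n => a n • e n) x) →
      (∀ (s : Finset ℕ) (a ε : ℕ → ℝ), (∀ n, ε n = 1 ∨ ε n = -1) →
          ‖∑ n ∈ s, (ε n * a n) • e n‖ ≤ ‖∑ n ∈ s, a n • e n‖) →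
      ∃ U : ℕ → Set (WeakSpace ℝ X),
        (∀ n, IsOpen (U n) ∧
            (U n ∩ (toWeakSpace ℝ X) '' Metric.closedBall (0 : X) 1).Nonempty) ∧
        ∀ V : Set (WeakSpace ℝ X), IsOpen V →
          (V ∩ (toWeakSpace ℝ X) '' Metric.closedBall (0 : X) 1).Nonempty →
            ∃ n, U n ∩ (toWeakSpace ℝ X) '' Metric.closedBall (0 : X) 1 ⊆ V := by
  intro X _ _ _ e he hunc
  choose c hc hcu using he
  exact Pool.Agent.N9helper31.UPi.main X
    { e := e
      c := c
      has := hc
      uniq := fun x a ha => hcu x a ha
      unc := hunc }

end Pool.Agent.S04693
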