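import Pool.Statements.S07574
-- import your own Pool.Agent.* helpers here

set_option autoImplicit false
open Pool Pool.MP_1f8616_co

namespace Pool.Agent.S07574

/-- The poset: the disjoint union of chains with `1, 2, 3, ...` elements. -/
abbrev P : Type := Σ n : ℕ, Fin (n + 1)

lemma chain_finite (C : Set P) (hC : IsChain (· ≤ ·) C) : C.Finite := by
  rcases C.eq_empty_or_nonempty with rfl | ⟨x, hx⟩
  · exact Set.finite_empty
  · refine Set.Finite.subset (Set.finite_range (fun a : Fin (x.1 + 1) => (⟨x.1, a⟩ : P))) ?_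
    intro y hy
    have h1 : y.1 = x.1 := by
      rcases eq_or_ne x y with rfl | hne
      · rfl
      · rcases hC hx hy hne with h | h
        · exact (Sigma.le_def.1 h).1.symm
        · exact (Sigma.le_def.1 h).1
    obtain ⟨m, b⟩ := y
    obtain ⟨n, a⟩ := x
    simp only at h1
    subst h1
    exact ⟨b, rfl⟩

/-- The negation of the preceding statement: Every countable poset with no saturated chain (or its reverse) that is an ω-indexed linear sum of infinite co-wellfounded chains has, for each k≥2, k disjoint chains and a partition into antichains where each antichain A meets at least min(∣A∣,k) chains. -/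
theorem result :
    ¬ (∀ (α : Type) [PartialOrder α] [Countable α],
    (¬ ∃ C : Set α, IsChain (· ≤ ·) C ∧
        (∀ x, x ∉ C → ∀ y ∈ C, ∀ z ∈ C, y < x → x < z → ¬ IsChain (· ≤ ·) (insert x C)) ∧
        ∃ f : α → ℕ,
          ((∀ x ∈ C, ∀ y ∈ C, x ≤ y → f x ≤ f y) ∧
            ∀ i : ℕ, Set.Infinite {x | x ∈ C ∧ f x = i} ∧
              ¬ ∃ s : ℕ → α, StrictMono s ∧ ∀ n, s n ∈ C ∧ f (s n) = i) ∨
          ((∀ x ∈ C, ∀ y ∈ C, x ≤ y → f y ≤ f x) ∧
            ∀ i : ℕ, Set.Infinite {x | x ∈ C ∧ f x = i} ∧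
              ¬ ∃ s : ℕ → α, StrictAnti s ∧ ∀ n, s n ∈ C ∧ f (s n) = i)) →
    ∀ k : ℕ, 2 ≤ k →
      ∃ C : Fin k → Set α, (∀ j, IsChain (· ≤ ·) (C j)) ∧
        Pairwise (fun i j => Disjoint (C i) (C j)) ∧
        ∃ g : α → ℕ, ∀ i : ℕ, IsAntichain (· ≤ ·) {x | g x = i} ∧
          min (Set.encard {x | g x = i}) (k : ℕ∞) ≤
            Set.encard {j : Fin k | (C j ∩ {x | g x = i}).Nonempty}) := by
  intro h
  obtain ⟨C, hC, -, g, hg⟩ := h P (by
    rintro ⟨C, hC, -, f, hf⟩
    have hfin := chain_finite C hC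
    rcases hf with ⟨-, hf⟩ | ⟨-, hf⟩
    · exact (hf 0).1 (hfin.subset fun x hx => hx.1)
    · exact (hf 0).1 (hfin.subset fun x hx => hx.1)) 2 le_rfl
  -- the union of the chains is finite
  have hU : (⋃ j, C j).Finite := Set.finite_iUnion fun j => chain_finite (C j) (hC j)
  set U : Finset P := hU.toFinset with hUdef
  set N : ℕ := U.card with hN
  -- every value of `g` is taken on `U`
  have key : ∀ x : P, g x ∈ U.image g := by
    intro x
    have h1 := (hg (g x)).2
    have h2 : (1 : ℕ∞) ≤ Set.encard {y | g y = g x} := by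
      rw [Set.one_le_encard_iff_nonempty]
      exact ⟨x, rfl⟩
    have h3 : (1 : ℕ∞) ≤ min (Set.encard {y | g y = g x}) ((2 : ℕ) : ℕ∞) :=
      le_min h2 (by norm_num)
    have h4 := h3.trans h1
    rw [Set.one_le_encard_iff_nonempty] at h4
    obtain ⟨j, y, hyC, hy⟩ := h4
    rw [Finset.mem_image]
    refine ⟨y, ?_, hy⟩
    rw [hUdef, Set.Finite.mem_toFinset]
    exact Set.mem_iUnion.2 ⟨j, hyC⟩
  -- the chain with `N + 1` elements receives distinct values
  have hinj : Function.Injective (fun a : Fin (N + 1) => g (⟨N, a⟩ : P)) := by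
    intro a b hab
    by_contra hne
    have hne' : (⟨N, a⟩ : P) ≠ ⟨N, b⟩ := by
      intro h'
      exact hne (by simpa using h')
    have hanti := (hg (g (⟨N, b⟩ : P))).1
    rcases le_total a b with hle | hle
    · exact hanti (show (⟨N, a⟩ : P) ∈ {x | g x = g (⟨N, b⟩ : P)} from hab)
        (show (⟨N, b⟩ : P) ∈ {x | g x = g (⟨N, b⟩ : P)} from rfl) hne'
        (Sigma.mk_le_mk_iff.2 hle)
    · exact hanti (show (⟨N, b⟩ : P) ∈ {x | g x = g (⟨N, b⟩ : P)} from rfl)
        (show (⟨N, a⟩ : P) ∈ {x | g x = g (⟨N, b⟩ : P)} from hab) hne'.symm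
        (Sigma.mk_le_mk_iff.2 hle)
  have hcard : N + 1 ≤ (U.image g).card := by
    calc N + 1 = (Finset.univ.image (fun a : Fin (N + 1) => g (⟨N, a⟩ : P))).card := by
          rw [Finset.card_image_of_injective _ hinj, Finset.card_univ, Fintype.card_fin]
      _ ≤ _ := Finset.card_le_card (by
          intro v hv
          rw [Finset.mem_image] at hv
          obtain ⟨a, -, rfl⟩ := hv
          exact key _)
  have := Finset.card_image_le (s := U) (f := g)
  omega

end Pool.Agent.S07574
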