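import Pool.Statements.S08765
import Pool.Agent.T2h96.FC.All

set_option autoImplicit false
open Filter
open Pool Pool.MP_52de8b_co

namespace Pool.Agent.S08765

/-- Any fixed point u of an everywhere-growing, non-quasi-uniform morphism prolongable on a letter, with all letters occurring in u, is eventually periodic or has s_u(n) ~ C log log n or s_u(n) ~ C log n for some C>0. -/
theorem result :
  ∀ (k : ℕ) (σ : Fin k → List (Fin k)) (a : Fin k) (u : ℕ → Fin k),
    (∀ b : Fin k, Tendsto
      (fun m : ℕ => ((fun w : List (Fin k) => w.flatMap σ)^[m] [b]).length) atTop atTop) →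
    (σ a).head? = some a → 2 ≤ (σ a).length →
    (∀ m i : ℕ, i < ((fun w : List (Fin k) => w.flatMap σ)^[m] [a]).length →
      ((fun w : List (Fin k) => w.flatMap σ)^[m] [a])[i]? = some (u i)) →
    (∀ b : Fin k, ∃ i : ℕ, u i = b) →
    ¬ (∀ b c : Fin k, Asymptotics.IsTheta atTop
        (fun m : ℕ => (((fun w : List (Fin k) => w.flatMap σ)^[m] [b]).length : ℝ))
        (fun m : ℕ => (((fun w : List (Fin k) => w.flatMap σ)^[m] [c]).length : ℝ))) →
    (∃ p N : ℕ, 0 < p ∧ ∀ i : ℕ, N ≤ i → u (i + p) = u i) ∨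
    ∃ C : ℝ, 0 < C ∧
      (Asymptotics.IsEquivalent atTop
        (fun n : ℕ =>
          ((Set.range (fun i : ℕ => List.ofFn (fun j : Fin (n + 1) => u (i + j.val)))).ncard : ℝ)
          - ((Set.range (fun i : ℕ => List.ofFn (fun j : Fin n => u (i + j.val)))).ncard : ℝ))
        (fun n : ℕ => C * Real.log (Real.log (n : ℝ))) ∨
       Asymptotics.IsEquivalent atTop
        (fun n : ℕ =>
          ((Set.range (fun i : ℕ => List.ofFn (fun j : Fin (n + 1) => u (i + j.val)))).ncard : ℝ)
          - ((Set.range (fun i : ℕ => List.ofFn (fun j : Fin n => u (i + j.val)))).ncard : ℝ))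
        (fun n : ℕ => C * Real.log (n : ℝ))) := by
  intro k σ a u h1 h2 h3 h4 h5 h6
  exact Or.inr (Pool.Agent.T2h96.FC.main_all k σ a u h1 h2 h3 h4 h5 h6)

end Pool.Agent.S08765
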