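import Pool.Statements.S13589
import Pool.Agent.T9h59.MDM.Bent

set_option autoImplicit false
open Pool Pool.MP_93ef73_gt

namespace Pool.Agent.S13589

/-- There exist d, a nonempty compact totally disconnected A in R^d with two distinct Steiner trees S, T, no terminal interior to segments in both, and nonempty compact M (∣M∣=∣A∣ if A finite) and r>0 with S an r-minimizer for M. -/
theorem result :
  ∃ (d : ℕ) (A S T M : Set (EuclideanSpace ℝ (Fin d))) (r : ℝ),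
    IsCompact A ∧ A.Nonempty ∧ IsTotallyDisconnected A ∧
    (IsCompact S ∧ IsConnected S ∧ A ⊆ S ∧
      MeasureTheory.Measure.hausdorffMeasure 1 S < ⊤ ∧
      ∀ S' : Set (EuclideanSpace ℝ (Fin d)), IsCompact S' → IsConnected S' → A ⊆ S' →
        MeasureTheory.Measure.hausdorffMeasure 1 S ≤ MeasureTheory.Measure.hausdorffMeasure 1 S') ∧
    (IsCompact T ∧ IsConnected T ∧ A ⊆ T ∧
      MeasureTheory.Measure.hausdorffMeasure 1 T < ⊤ ∧
      ∀ S' : Set (EuclideanSpace ℝ (Fin d)), IsCompact S' → IsConnected S' → A ⊆ S' →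
        MeasureTheory.Measure.hausdorffMeasure 1 T ≤ MeasureTheory.Measure.hausdorffMeasure 1 S') ∧
    S ≠ T ∧
    IsCompact M ∧ M.Nonempty ∧ 0 < r ∧
    (A.Finite → M.Finite ∧ M.ncard = A.ncard) ∧
    (¬ ∃ a ∈ A,
        (∃ x y : EuclideanSpace ℝ (Fin d), x ≠ y ∧ segment ℝ x y ⊆ S ∧ a ∈ openSegment ℝ x y) ∧
        (∃ x y : EuclideanSpace ℝ (Fin d), x ≠ y ∧ segment ℝ x y ⊆ T ∧ a ∈ openSegment ℝ x y)) ∧
    (∀ y ∈ M, Metric.infDist y S ≤ r) ∧
    ∀ W : Set (EuclideanSpace ℝ (Fin d)), IsCompact W → IsConnected W →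
      (∀ y ∈ M, Metric.infDist y W ≤ r) →
        MeasureTheory.Measure.hausdorffMeasure 1 S ≤ MeasureTheory.Measure.hausdorffMeasure 1 W := by
  have hA : ∀ W : Set (EuclideanSpace ℝ (Fin 2)), IsCompact W → IsConnected W →
      Set.range Pool.Agent.T9h59.MDM.ap ⊆ W →
      ENNReal.ofReal (2 + 2 * √3 + 4 / 100) ≤ MeasureTheory.Measure.hausdorffMeasure 1 W := by
    intro W hWc hW hAW
    exact Pool.Agent.T9h59.MDM.lower_set hWc hW
      (Pool.Agent.T9h59.MDM.mp_infDist fun t => hAW ⟨t, rfl⟩)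
  have hfA : (Set.range Pool.Agent.T9h59.MDM.ap).Finite := Set.finite_range _
  have hfM : (Set.range Pool.Agent.T9h59.MDM.mp).Finite := Set.finite_range _
  refine ⟨2, Set.range Pool.Agent.T9h59.MDM.ap, Pool.Agent.T9h59.MDM.SS,
    Pool.Agent.T9h59.MDM.TT, Set.range Pool.Agent.T9h59.MDM.mp, 1 / 100, hfA.isCompact,
    Set.range_nonempty _, hfA.countable.isTotallyDisconnected,
    ⟨Pool.Agent.T9h59.MDM.compact_SS, Pool.Agent.T9h59.MDM.conn_SS, ?_, ?_, ?_⟩,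
    ⟨Pool.Agent.T9h59.MDM.compact_TT, Pool.Agent.T9h59.MDM.conn_TT, ?_, ?_, ?_⟩,
    Pool.Agent.T9h59.MDM.SS_ne_TT, hfM.isCompact, Set.range_nonempty _, by norm_num, ?_, ?_, ?_, ?_⟩
  · rintro _ ⟨t, rfl⟩
    exact Pool.Agent.T9h59.MDM.ap_mem_SS t
  · exact Pool.Agent.T9h59.MDM.length_SS.trans_lt ENNReal.ofReal_lt_top
  · intro S' h1 h2 h3
    exact Pool.Agent.T9h59.MDM.length_SS.trans (hA S' h1 h2 h3)
  · rintro _ ⟨t, rfl⟩
    exact Pool.Agent.T9h59.MDM.ap_mem_TT t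
  · exact Pool.Agent.T9h59.MDM.length_TT.trans_lt ENNReal.ofReal_lt_top
  · intro S' h1 h2 h3
    exact Pool.Agent.T9h59.MDM.length_TT.trans (hA S' h1 h2 h3)
  · intro _
    refine ⟨hfM, ?_⟩
    rw [Set.ncard_range_of_injective Pool.Agent.T9h59.MDM.mp_inj,
      Set.ncard_range_of_injective Pool.Agent.T9h59.MDM.ap_inj]
  · rintro ⟨_, ⟨⟨c, b⟩, rfl⟩, ⟨x, y, hxy, h1, h2⟩, ⟨x', y', hxy', h1', h2'⟩⟩
    cases b
    · exact Pool.Agent.T9h59.MDM.cor_not_interior c hxy' h1' h2'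
    · exact Pool.Agent.T9h59.MDM.tip_not_interior c hxy h1 h2
  · rintro _ ⟨t, rfl⟩
    exact Pool.Agent.T9h59.MDM.mp_infDist Pool.Agent.T9h59.MDM.ap_mem_SS t
  · intro W h1 h2 h3
    exact Pool.Agent.T9h59.MDM.length_SS.trans
      (Pool.Agent.T9h59.MDM.lower_set h1 h2 fun t => h3 _ ⟨t, rfl⟩)

end Pool.Agent.S13589
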